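import Pool.Agent.Helper94.LK.Final
import Pool.Agent.Helper6.LK.THREEB

/-!
# MP_e4073d_mp, Q1: negative answer

For every coupling `α > 0` there is a curve `γ` satisfying all hypotheses of the problem
(continuous, piecewise `C¹`, arc length, (a1), (a2), (a3)) such that the leaky-curve operator
`H_{α,Γ} = -Δ - α δ(x - Γ)` has an eigenvalue below `-α²/4` of multiplicity at least two.
The curve is a mirror symmetric polygonal line with three vertices and four edges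
(two of them half-lines).
-/

open MeasureTheory Filter Topology Set
open scoped ENNReal SchwartzMap ComplexConjugate

namespace Pool.Agent.Results.MP_e4073d_mp.DoubleEigenvalue

/-- the Euclidean plane -/
abbrev Plane := EuclideanSpace ℝ (Fin 2)

/-- Hypotheses on the curve `γ : ℝ → ℝ²`: continuous, piecewise `C¹` and parametrised by arc
length (outside a finite set the derivative exists, is a unit vector and is continuous; at the
exceptional points it has one-sided limits), and (a1), (a2), (a3) of the problem. -/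
structure AdmissibleCurve (γ : ℝ → Plane) : Prop where
  cont : Continuous γ
  piecewise : ∃ (F : Finset ℝ) (v : ℝ → Plane),
    (∀ s ∉ F, HasDerivAt γ (v s) s ∧ ‖v s‖ = 1 ∧ ContinuousAt v s) ∧
    (∀ s ∈ F, (∃ l, Tendsto v (𝓝[<] s) (𝓝 l)) ∧ ∃ r, Tendsto v (𝓝[>] s) (𝓝 r))
  a1 : ∃ c : ℝ, 0 < c ∧ c < 1 ∧ ∀ s s', c * |s - s'| ≤ ‖γ s - γ s'‖
  a2 : ∃ d μ ω : ℝ, 0 < d ∧ 1 / 2 < μ ∧ 0 < ω ∧ ω < 1 ∧ ∀ s s', s ≠ s' → s' ≠ 0 →
    ω < s / s' → s / s' < ω⁻¹ →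
      1 - ‖γ s - γ s'‖ / |s - s'| ≤ d * (1 + |s + s'| ^ (2 * μ)) ^ (-(1 / 2) : ℝ)
  a3 : ∃ s s', ‖γ s - γ s'‖ < |s - s'|

/-- the `i`-th partial derivative of a Schwartz function -/
noncomputable def partialDeriv (i : Fin 2) (φ : 𝓢(Plane, ℂ)) (x : Plane) : ℂ :=
  fderiv ℝ φ x (EuclideanSpace.single i 1)

/-- `ψ ∈ W^{1,2}(ℝ²)` with gradient `g = ∇ψ` and trace `t = ψ|_Γ` (as a function of the arc
length): `(ψ, g, t)` is the limit in `L²(ℝ²) × L²(ℝ²)² × L²(ℝ)` of triples `(φ, ∇φ, φ ∘ γ)` with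
`φ` Schwartz functions. -/
def IsSobolevTriple (γ : ℝ → Plane) (ψ : Plane → ℂ) (g : Fin 2 → Plane → ℂ) (t : ℝ → ℂ) : Prop :=
  MemLp ψ 2 volume ∧ (∀ i, MemLp (g i) 2 volume) ∧ MemLp t 2 volume ∧
  ∃ φ : ℕ → 𝓢(Plane, ℂ),
    Tendsto (fun n => eLpNorm (fun x => φ n x - ψ x) 2 volume) atTop (𝓝 0) ∧
    (∀ i, Tendsto (fun n => eLpNorm (fun x => partialDeriv i (φ n) x - g i x) 2 volume)
      atTop (𝓝 0)) ∧
    Tendsto (fun n => eLpNorm (fun s => φ n (γ s) - t s) 2 volume) atTop (𝓝 0)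

/-- `ψ ∈ D(H_{α,Γ})` and `H_{α,Γ} ψ = f`, where `H_{α,Γ}` is the operator associated with the
form `∫ |∇ψ|² - α ∫ |ψ(γ(s))|² ds` on `W^{1,2}(ℝ²)`: `ψ ∈ W^{1,2}`, `f ∈ L²` and
`∫ ∇ψ · conj ∇φ - α ∫ ψ(γ(s)) conj φ(γ(s)) ds = ∫ f conj φ` for every `φ ∈ W^{1,2}(ℝ²)`. -/
def LeakyOperator (α : ℝ) (γ : ℝ → Plane) (ψ f : Plane → ℂ) : Prop :=
  MemLp f 2 volume ∧ ∃ g t, IsSobolevTriple γ ψ g t ∧
    ∀ φ h τ, IsSobolevTriple γ φ h τ →
      (∑ i, ∫ x, g i x * conj (h i x)) - α * ∫ s, t s * conj (τ s) = ∫ x, f x * conj (φ x)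

/-- `lam` is an eigenvalue of `H_{α,Γ}` of multiplicity at least two: two eigenfunctions,
linearly independent in `L²(ℝ²)`. -/
def MultiplicityAtLeastTwo (α : ℝ) (γ : ℝ → Plane) (lam : ℝ) : Prop :=
  ∃ ψ₁ ψ₂ : Plane → ℂ,
    LeakyOperator α γ ψ₁ (fun x => lam * ψ₁ x) ∧ LeakyOperator α γ ψ₂ (fun x => lam * ψ₂ x) ∧
    ∀ a b : ℂ, (∀ᵐ x, a * ψ₁ x + b * ψ₂ x = 0) → a = 0 ∧ b = 0

/-- For an admissible curve the gradient and the trace in `IsSobolevTriple` are determined by the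
function (so that `IsSobolevTriple` is the graph of `ψ ↦ (∇ψ, ψ|_Γ)`); not used in `result`. -/
theorem triple_unique {γ : ℝ → Plane} (hγ : AdmissibleCurve γ) {ψ : Plane → ℂ}
    {g g' : Fin 2 → Plane → ℂ} {t t' : ℝ → ℂ} (h : IsSobolevTriple γ ψ g t)
    (h' : IsSobolevTriple γ ψ g' t') : (∀ i, g i =ᵐ[volume] g' i) ∧ t =ᵐ[volume] t' :=
  Pool.Agent.Helper94.LK.trace_unique ⟨hγ.cont, hγ.piecewise, hγ.a1, hγ.a2, hγ.a3⟩ h h'

/-- **Negative answer to Q1**, for every `α > 0`. -/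
theorem result : ∀ α : ℝ, 0 < α → ∃ (γ : ℝ → Plane) (lam : ℝ), AdmissibleCurve γ ∧
    lam < -(α ^ 2 / 4) ∧ MultiplicityAtLeastTwo α γ lam := by
  intro α hα
  obtain ⟨γ, lam, h1, h2, h3⟩ := Pool.Agent.Helper94.LK.main_all
    (Pool.Agent.Helper6.LK.threeb_thm Pool.Agent.Helper94.LK.f_K1 Pool.Agent.Helper94.LK.f_GEO
      Pool.Agent.Helper94.LK.f_KB Pool.Agent.Helper94.LK.f_TENT) α hα
  exact ⟨γ, lam, ⟨h1.cont, h1.piecewise, h1.a1, h1.a2, h1.a3⟩, h2, h3⟩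

end Pool.Agent.Results.MP_e4073d_mp.DoubleEigenvalue
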